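import Pool.Agent.WR2.StmtsA

namespace Pool.Agent.WR2.H27

open Pool.Agent.WIR

theorem T_pos {b : ℕ} (hb : 0 < b) : 0 < T b := by
  unfold T
  split_ifs with h
  · omega
  · omega

theorem iter_pos (t : ℕ) {b : ℕ} (hb : 0 < b) : 0 < T^[t] b := by
  induction t with
  | zero => simpa using hb
  | succ t ih =>
    rw [Function.iterate_succ_apply']
    exact T_pos ih

theorem od_succ (t b : ℕ) :
    od (t + 1) b = od t b + (if T^[t] b % 2 = 1 then 1 else 0) := by
  unfold od
  rw [Finset.range_add_one, Finset.filter_insert]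
  split_ifs with h
  · rw [Finset.card_insert_of_notMem (by simp)]
  · simp

theorem od_le (t b : ℕ) : od t b ≤ t := by
  unfold od
  have := Finset.card_filter_le (Finset.range t) (fun i => T^[i] b % 2 = 1)
  simpa using this

theorem key (t b : ℕ) : 3 ^ od t b * b ≤ 2 ^ t * T^[t] b := by
  induction t with
  | zero => simp [od]
  | succ t ih =>
    rw [od_succ, Function.iterate_succ_apply']
    set c := T^[t] b with hc
    by_cases h : c % 2 = 1
    · rw [if_pos h]
      have h1 : 3 * c ≤ 2 * T c := by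
        unfold T
        rw [if_pos h]
        omega
      calc 3 ^ (od t b + 1) * b = 3 * (3 ^ od t b * b) := by ring
        _ ≤ 3 * (2 ^ t * c) := Nat.mul_le_mul_left _ ih
        _ = 2 ^ t * (3 * c) := by ring
        _ ≤ 2 ^ t * (2 * T c) := Nat.mul_le_mul_left _ h1
        _ = 2 ^ (t + 1) * T c := by ring
    · rw [if_neg h]
      have h1 : c ≤ 2 * T c := by
        unfold T
        rw [if_neg h]
        omega
      calc 3 ^ (od t b + 0) * b = 3 ^ od t b * b := by ring
        _ ≤ 2 ^ t * c := ih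
        _ ≤ 2 ^ t * (2 * T c) := Nat.mul_le_mul_left _ h1
        _ = 2 ^ (t + 1) * T c := by ring

theorem le_of_iter (t a b : ℕ) (h : T^[t] b = a) : b ≤ 2 ^ t * a := by
  have h1 := key t b
  rw [h] at h1
  have h2 : 1 * b ≤ 3 ^ od t b * b := Nat.mul_le_mul_right _ (Nat.one_le_pow _ _ (by norm_num))
  rw [one_mul] at h2
  exact le_trans h2 h1

theorem mem_pre (t l a b : ℕ) : b ∈ Pre t l a ↔ (0 < b ∧ T^[t] b = a ∧ od t b = l) := by
  unfold Pre
  rw [Finset.mem_filter, Finset.mem_Icc]
  constructor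
  · rintro ⟨⟨h1, _⟩, h3, h4⟩
    exact ⟨h1, h3, h4⟩
  · rintro ⟨h1, h3, h4⟩
    exact ⟨⟨h1, le_of_iter t a b h3⟩, h3, h4⟩

theorem pre : PreStmt := by
  refine ⟨mem_pre, ?_, ?_, ?_⟩
  · intro t l a b hb
    obtain ⟨_, h2, h3⟩ := (mem_pre t l a b).1 hb
    have := key t b
    rw [h2, h3] at this
    exact this
  · intro t l a
    unfold uT
    rw [← Set.ncard_coe_finset]
    congr 1
    ext b
    rw [Finset.mem_coe, mem_pre]
    simp [od]
  · intro t l a h
    rw [Finset.eq_empty_iff_forall_notMem]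
    intro b hb
    obtain ⟨_, _, h3⟩ := (mem_pre t l a b).1 hb
    have := od_le t b
    omega

end Pool.Agent.WR2.H27
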